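import Pool.Agent.H75.EX4

/-! A functorial lifting of simplicial monoids with order-unit, along normalized embeddings, by
exchange rings. -/

set_option autoImplicit false

namespace Pool.Agent.Results.MP_8d5706_al.Exch

open Matrix Pool.Agent.H75

/-- A simplicial monoid `ℕ ^ n` with an order-unit `u`. -/
structure Obj where
  n : ℕ
  u : Fin n → ℕ
  unit : ∀ x : Fin n → ℕ, ∃ (y : Fin n → ℕ) (k : ℕ), x + y = k • u

/-- Normalized monoid embeddings. -/
structure Hom (A B : Obj) where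
  f : (Fin A.n → ℕ) →+ (Fin B.n → ℕ)
  inj : Function.Injective f
  norm : f A.u = B.u

def Hom.id (A : Obj) : Hom A A := ⟨AddMonoidHom.id _, fun _ _ h => h, rfl⟩

def Hom.comp {A B C : Obj} (g : Hom B C) (f : Hom A B) : Hom A C :=
  ⟨g.f.comp f.f, g.inj.comp f.inj, (congrArg g.f f.norm).trans g.norm⟩

def IsExchange (R : Type) [Ring R] : Prop :=
  ∀ x : R, ∃ e, e * e = e ∧ (∃ r, e = x * r) ∧ ∃ s, 1 - e = (1 - x) * s

theorem Obj.pos (A : Obj) (i : Fin A.n) : 0 < A.u i := by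
  obtain ⟨y, k, h⟩ := A.unit (Pi.single i 1)
  have := congrFun h i
  simp only [Pi.add_apply, Pi.single_eq_same, Pi.smul_apply, smul_eq_mul] at this
  exact Nat.pos_of_mul_pos_left (by omega : 0 < k * A.u i)

theorem result : ∃ (R : Obj → Type) (_ : ∀ A, Ring (R A))
    (F : ∀ A B, Hom A B → (R A →+* R B))
    (φ : ∀ A k, Matrix (Fin k) (Fin k) (R A) → Fin A.n → ℕ),
    (∀ A, IsExchange (R A)) ∧ (∀ A, F A A (Hom.id A) = RingHom.id (R A)) ∧
    (∀ A B C (f : Hom A B) (g : Hom B C), F A C (g.comp f) = (F B C g).comp (F A B f)) ∧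
    (∀ A k l (p : Matrix (Fin k) (Fin k) (R A)) (q : Matrix (Fin l) (Fin l) (R A)),
      p * p = p → q * q = q →
      (φ A k p = φ A l q ↔ ∃ (x : Matrix (Fin k) (Fin l) (R A)) (y : Matrix (Fin l) (Fin k) (R A)),
        x * y = p ∧ y * x = q) ∧
      φ A (k + l) (reindex finSumFinEquiv finSumFinEquiv (fromBlocks p 0 0 q)) =
        φ A k p + φ A l q) ∧
    (∀ A x, ∃ (k : ℕ) (p : Matrix (Fin k) (Fin k) (R A)), p * p = p ∧ φ A k p = x) ∧
    ∀ A B (f : Hom A B) k (p : Matrix (Fin k) (Fin k) (R A)), p * p = p →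
      φ B k (p.map (F A B f)) = f.f (φ A k p) :=
  ⟨fun A => EX.RR A.u, inferInstance, fun _ _ f => EX.FR f.inj f.norm, fun _ _ p => EX.cl p,
    fun A => EX.exchange EX.pr_surj (EX.pr_unit A.pos) (EX.clean_pr A.pos),
    fun _ => EX.FR_id _ _, fun _ _ _ f g => EX.FR_comp f.inj g.inj _ _ _ _,
    fun A _ _ _ _ hp hq => ⟨⟨EX.equiv_of_cl A.pos hp hq, fun ⟨x, y, h1, h2⟩ => funext fun _ =>
      congrArg EX.nat (by rw [← h1, ← h2, EX.tau_comm])⟩, EX.cl_block hp hq _⟩,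
    fun A => EX.exists_cl A.pos, fun A _ f _ _ hp => EX.cl_FR A.pos f.inj f.norm hp⟩

end Pool.Agent.Results.MP_8d5706_al.Exch
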